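import Pool.Agent.Helper89.Final

/-!
Consecutive integers whose new prime factors appear at most one at a time (MP_6f0a72_nt): the proof of
`Pool.Agent.Helper89.ES.not_hyp`, with exceptional numbers `k` and with bounded `k`.
-/

set_option autoImplicit false

namespace Pool.Agent.Helper31.BK

open Finset
open Pool.Agent.Helper89.ES

/-- For every `k` with `1 ≤ k < Y` which is not in `E`, `n + k` has at most one prime factor
exceeding `k`. -/
def HypE (n Y : ℕ) (E : Finset ℕ) : Prop :=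
  ∀ k : ℕ, 1 ≤ k → k < Y → k ∉ E → ∀ p q : ℕ, p.Prime → q.Prime → p ∣ n + k → q ∣ n + k →
    k < p → k < q → p = q

/-- The primes which are used. -/
def good (n Y : ℕ) (E : Finset ℕ) : Finset ℕ :=
  (Nat.primesLE Y).filter (fun p => ¬p ∣ n ∧ kap n p ∉ E)

theorem mem_good {n Y : ℕ} {E : Finset ℕ} {p : ℕ} (hp : p ∈ good n Y E) :
    p.Prime ∧ p ≤ Y ∧ ¬p ∣ n ∧ kap n p ∉ E := by
  unfold good at hp
  rw [mem_filter, Nat.mem_primesLE] at hp
  exact ⟨hp.1.2, hp.1.1, hp.2.1, hp.2.2⟩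

theorem kap_smooth' {n Y : ℕ} {E : Finset ℕ} (hyp : HypE n Y E) {p : ℕ} (hp : p ∈ good n Y E) {r : ℕ}
    (hr : r.Prime) (hrn : r ∣ n + kap n p) : r ≤ p := by
  obtain ⟨h1, h2, h3, h4⟩ := mem_good hp
  by_contra hlt
  push Not at hlt
  have h5 := kap_lt h1 h3
  have := hyp (kap n p) (kap_pos h1) (by omega) h4 p r h1 hr (dvd_kap h1) hrn h5 (by omega)
  omega

theorem kap_inj' {n Y : ℕ} {E : Finset ℕ} (hyp : HypE n Y E) {p q : ℕ} (hp : p ∈ good n Y E)
    (hq : q ∈ good n Y E) (h : kap n p = kap n q) : p = q := by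
  obtain ⟨h1, h2, h3, h4⟩ := mem_good hp
  obtain ⟨g1, g2, g3, g4⟩ := mem_good hq
  have h5 := kap_lt h1 h3
  have h6 := kap_lt g1 g3
  exact hyp (kap n p) (kap_pos h1) (by omega) h4 p q h1 g1 (dvd_kap h1) (h ▸ dvd_kap g1) h5 (h ▸ h6)

theorem sum_val_le' (n Y : ℕ) (E : Finset ℕ) (hyp : HypE n Y E) (r : ℕ) (hr : r.Prime) (p0 : ℕ)
    (hp0 : p0 ∈ good n Y E)
    (hmax : ∀ p ∈ good n Y E, (n + kap n p).factorization r ≤ (n + kap n p0).factorization r) :
    ∑ p ∈ (good n Y E).erase p0, (n + kap n p).factorization r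
      ≤ (Y.factorial).factorization r := by
  obtain ⟨hp0p, hp0Y, hp0n, -⟩ := mem_good hp0
  set c := kap n p0 with hc
  have hc1 : 1 ≤ c := kap_pos hp0p
  have hcY : c ≤ Y := by
    have := kap_lt hp0p hp0n
    omega
  have hinj : Set.InjOn (kap n) ((good n Y E).erase p0 : Finset ℕ) := by
    intro p hp q hq hpq
    exact kap_inj' hyp (mem_of_mem_erase hp) (mem_of_mem_erase hq) hpq
  have himg : ((good n Y E).erase p0).image (kap n) ⊆ (Icc 1 Y).erase c := by
    intro k hk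
    obtain ⟨p, hp, rfl⟩ := mem_image.mp hk
    have h1 := mem_good (mem_of_mem_erase hp)
    rw [mem_erase, mem_Icc]
    refine ⟨?_, kap_pos h1.1, ?_⟩
    · intro h
      exact (ne_of_mem_erase hp) (kap_inj' hyp (mem_of_mem_erase hp) hp0 h)
    · have := kap_lt h1.1 h1.2.2.1
      omega
  have hdist : ∀ k ∈ (Icc 1 Y).erase c, Nat.dist k c ≠ 0 := by
    intro k hk h0
    exact (ne_of_mem_erase hk) (Nat.eq_of_dist_eq_zero h0)
  calc ∑ p ∈ (good n Y E).erase p0, (n + kap n p).factorization r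
      ≤ ∑ p ∈ (good n Y E).erase p0, (Nat.dist (kap n p) c).factorization r := by
        apply Finset.sum_le_sum
        intro p hp
        have hpS := mem_of_mem_erase hp
        have hk : kap n p ∈ (Icc 1 Y).erase c := himg (mem_image_of_mem _ hp)
        have hd := hdist _ hk
        rw [← hr.pow_dvd_iff_le_factorization hd]
        apply pow_dvd_dist (a := n)
        · exact Nat.ordProj_dvd _ _
        · exact (pow_dvd_pow r (hmax p hpS)).trans (Nat.ordProj_dvd _ _)
    _ = ∑ k ∈ ((good n Y E).erase p0).image (kap n), (Nat.dist k c).factorization r := by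
        rw [Finset.sum_image hinj]
    _ ≤ ∑ k ∈ (Icc 1 Y).erase c, (Nat.dist k c).factorization r :=
        Finset.sum_le_sum_of_subset himg
    _ = (∏ k ∈ (Icc 1 Y).erase c, Nat.dist k c).factorization r := by
        rw [Nat.factorization_prod hdist, Finset.sum_apply']
    _ ≤ (Y.factorial).factorization r := by
        have h1 := prod_dist_dvd Y c hc1 hcY
        have h2 : ∏ k ∈ (Icc 1 Y).erase c, Nat.dist k c ≠ 0 := Finset.prod_ne_zero_iff.mpr hdist
        exact (Nat.factorization_le_iff_dvd h2 (Nat.factorial_ne_zero Y)).mpr h1 r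

theorem key' (n Y : ℕ) (E : Finset ℕ) (hyp : HypE n Y E) (hn : 0 < n)
    (hne : (good n Y E).Nonempty) :
    ∃ w : ℕ → ℕ, (∀ r, 1 ≤ w r ∧ w r ≤ Y) ∧
      n ^ (good n Y E).card
        ≤ (∏ r ∈ Nat.primesLE Y, r ^ (n + w r).factorization r) * Y.factorial := by
  have hex : ∀ r : ℕ, ∃ p0 ∈ good n Y E, ∀ p ∈ good n Y E,
      (n + kap n p).factorization r ≤ (n + kap n p0).factorization r := fun r =>
    Finset.exists_max_image (good n Y E) (fun p => (n + kap n p).factorization r) hne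
  choose ps hps hmax using hex
  refine ⟨fun r => kap n (ps r), ?_, ?_⟩
  · intro r
    have h1 := mem_good (hps r)
    have h2 := kap_lt h1.1 h1.2.2.1
    have h3 := h1.2.1
    exact ⟨kap_pos h1.1, le_trans (le_of_lt h2) h3⟩
  · calc n ^ (good n Y E).card = ∏ p ∈ good n Y E, n := by rw [Finset.prod_const]
      _ ≤ ∏ p ∈ good n Y E, (n + kap n p) := Finset.prod_le_prod' (fun p _ => Nat.le_add_right _ _)
      _ = ∏ p ∈ good n Y E, ∏ r ∈ Nat.primesLE Y, r ^ (n + kap n p).factorization r := by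
          apply Finset.prod_congr rfl
          intro p hp
          have h1 := mem_good hp
          rw [prod_pow_fact_eq (by omega)]
          intro r hr hrn
          exact (kap_smooth' hyp hp hr hrn).trans h1.2.1
      _ = ∏ r ∈ Nat.primesLE Y, ∏ p ∈ good n Y E, r ^ (n + kap n p).factorization r :=
          Finset.prod_comm
      _ ≤ ∏ r ∈ Nat.primesLE Y,
            (r ^ (n + kap n (ps r)).factorization r * r ^ (Y.factorial).factorization r) := by
          apply Finset.prod_le_prod'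
          intro r hr
          have hrp := (Nat.mem_primesLE.mp hr).2
          rw [Finset.prod_pow_eq_pow_sum, ← pow_add]
          apply Nat.pow_le_pow_right hrp.pos
          rw [← Finset.add_sum_erase (good n Y E) _ (hps r)]
          exact Nat.add_le_add_left (sum_val_le' n Y E hyp r hrp (ps r) (hps r) (hmax r)) _
      _ = (∏ r ∈ Nat.primesLE Y, r ^ (n + kap n (ps r)).factorization r) * Y.factorial := by
          rw [Finset.prod_mul_distrib]
          congr 1
          apply prod_pow_fact_eq (Nat.factorial_ne_zero Y)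
          intro r hr hrn
          exact (Nat.Prime.dvd_factorial hr).mp hrn

/-- The number of the primes which are not used. -/
theorem card_bad_le (n L Y : ℕ) (E : Finset ℕ) (hn : 0 < n) (hL : n < 2 ^ L) (hE : ∀ k ∈ E, k ≤ n) :
    ((Nat.primesLE Y).filter (fun p => ¬(¬p ∣ n ∧ kap n p ∉ E))).card
      ≤ L + E.card * (L + 1) := by
  classical
  have h1 : (Nat.primesLE Y).filter (fun p => ¬(¬p ∣ n ∧ kap n p ∉ E)) ⊆
      (Nat.primesLE Y).filter (fun p => p ∣ n) ∪
        E.biUnion (fun k => (Nat.primesLE Y).filter (fun p => p ∣ n + k)) := by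
    intro p hp
    rw [mem_filter] at hp
    rw [mem_union, mem_filter, mem_biUnion]
    by_cases h : p ∣ n
    · exact Or.inl ⟨hp.1, h⟩
    · refine Or.inr ⟨kap n p, ?_, ?_⟩
      · by_contra h2
        exact hp.2 ⟨h, h2⟩
      · rw [mem_filter]
        exact ⟨hp.1, dvd_kap (Nat.mem_primesLE.mp hp.1).2⟩
  refine (card_le_card h1).trans ((card_union_le _ _).trans (Nat.add_le_add ?_ ?_))
  · apply card_dvd_le n L hn hL
    · intro p hp
      exact (Nat.mem_primesLE.mp (mem_filter.mp hp).1).2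
    · intro p hp
      exact (mem_filter.mp hp).2
  · apply card_biUnion_le_card_mul
    intro k hk
    apply card_dvd_le (n + k) (L + 1) (by omega)
    · have := hE k hk
      rw [pow_succ]
      omega
    · intro p hp
      exact (Nat.mem_primesLE.mp (mem_filter.mp hp).1).2
    · intro p hp
      exact (mem_filter.mp hp).2

/-- Bound for the number of bad primes. -/
theorem bad_bound' (n t L M b : ℕ) (E : Finset ℕ) (w : ℕ → ℕ) (hn : 0 < n) (hL : n < 2 ^ L)
    (hY : 2 ^ t ≤ n) (hw : ∀ r, 1 ≤ w r ∧ w r ≤ 2 ^ t)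
    (hM : ((Nat.primesLE (2 ^ t)).filter (fun p => ¬(¬p ∣ n ∧ kap n p ∉ E))).card ≤ M)
    (hkey : n ^ (good n (2 ^ t) E).card
        ≤ (∏ r ∈ Nat.primesLE (2 ^ t), r ^ (n + w r).factorization r) * (2 ^ t).factorial) :
    b * ((Nat.primesLE (2 ^ t)).filter (fun r => r ^ (n + w r).factorization r * 2 ^ b < n)).card
      ≤ (t + 1) * 2 ^ t + L * M := by
  set P := Nat.primesLE (2 ^ t) with hP
  set S := good n (2 ^ t) E with hS
  set D := P.filter (fun p => ¬(¬p ∣ n ∧ kap n p ∉ E)) with hD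
  set B := P.filter (fun r => r ^ (n + w r).factorization r * 2 ^ b < n) with hB
  set G := P.filter (fun r => ¬ r ^ (n + w r).factorization r * 2 ^ b < n) with hG
  have hcard : P.card = D.card + S.card := by
    rw [add_comm]
    exact (Finset.card_filter_add_card_filter_not (s := P) (fun p => ¬p ∣ n ∧ kap n p ∉ E)).symm
  have hcard2 : P.card = B.card + G.card := (Finset.card_filter_add_card_filter_not _).symm
  have hPc : P.card ≤ 2 ^ t := by
    have h0 : P ⊆ Finset.Icc 1 (2 ^ t) := by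
      intro p hp
      have := Nat.mem_primesLE.mp hp
      exact Finset.mem_Icc.mpr ⟨this.2.pos, this.1⟩
    have := Finset.card_le_card h0
    simpa using this
  have hval : ∀ r ∈ P, r ^ (n + w r).factorization r ≤ 2 * n := by
    intro r _
    have h1 : r ^ (n + w r).factorization r ≤ n + w r :=
      Nat.le_of_dvd (by omega) (Nat.ordProj_dvd _ _)
    have := (hw r).2
    omega
  have hprod : (∏ r ∈ P, r ^ (n + w r).factorization r) * (2 ^ b) ^ B.card ≤ (2 * n) ^ P.card := by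
    rw [← Finset.prod_filter_mul_prod_filter_not P
      (fun r => r ^ (n + w r).factorization r * 2 ^ b < n)]
    have hB1 : (∏ r ∈ B, r ^ (n + w r).factorization r) * (2 ^ b) ^ B.card ≤ (2 * n) ^ B.card := by
      rw [← Finset.prod_const, ← Finset.prod_mul_distrib]
      apply Finset.prod_le_pow_card
      intro r hr
      have := (mem_filter.mp hr).2
      omega
    have hG1 : (∏ r ∈ G, r ^ (n + w r).factorization r) ≤ (2 * n) ^ G.card := by
      apply Finset.prod_le_pow_card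
      intro r hr
      exact hval r (mem_filter.mp hr).1
    calc (∏ r ∈ B, r ^ (n + w r).factorization r) * (∏ r ∈ G, r ^ (n + w r).factorization r)
          * (2 ^ b) ^ B.card
        = ((∏ r ∈ B, r ^ (n + w r).factorization r) * (2 ^ b) ^ B.card)
            * (∏ r ∈ G, r ^ (n + w r).factorization r) := by ring
      _ ≤ (2 * n) ^ B.card * (2 * n) ^ G.card := Nat.mul_le_mul hB1 hG1
      _ = (2 * n) ^ P.card := by rw [hcard2, pow_add]
  have hfact : (2 ^ t).factorial ≤ 2 ^ (t * 2 ^ t) := by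
    calc (2 ^ t).factorial ≤ (2 ^ t) ^ (2 ^ t) := Nat.factorial_le_pow _
      _ = 2 ^ (t * 2 ^ t) := by rw [← pow_mul]
  have hmain : n ^ S.card * (2 ^ b) ^ B.card ≤ n ^ S.card * 2 ^ ((t + 1) * 2 ^ t + L * M) := by
    calc n ^ S.card * (2 ^ b) ^ B.card
        ≤ ((∏ r ∈ P, r ^ (n + w r).factorization r) * (2 ^ t).factorial) * (2 ^ b) ^ B.card :=
          Nat.mul_le_mul_right _ hkey
      _ = ((∏ r ∈ P, r ^ (n + w r).factorization r) * (2 ^ b) ^ B.card) * (2 ^ t).factorial := by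
          ring
      _ ≤ (2 * n) ^ P.card * 2 ^ (t * 2 ^ t) := Nat.mul_le_mul hprod hfact
      _ = 2 ^ P.card * (n ^ D.card * n ^ S.card) * 2 ^ (t * 2 ^ t) := by
          rw [mul_pow, ← pow_add, ← hcard]
      _ ≤ 2 ^ (2 ^ t) * ((2 ^ L) ^ M * n ^ S.card) * 2 ^ (t * 2 ^ t) := by
          apply Nat.mul_le_mul_right
          apply Nat.mul_le_mul
          · exact Nat.pow_le_pow_right (by norm_num) hPc
          · apply Nat.mul_le_mul_right
            calc n ^ D.card ≤ (2 ^ L) ^ D.card := Nat.pow_le_pow_left hL.le _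
              _ ≤ (2 ^ L) ^ M := Nat.pow_le_pow_right (by positivity) hM
      _ = n ^ S.card * 2 ^ ((t + 1) * 2 ^ t + L * M) := by
          rw [← pow_mul 2 L M, add_mul, one_mul, pow_add, pow_add]
          ring
  have h5 : (2 ^ b) ^ B.card ≤ 2 ^ ((t + 1) * 2 ^ t + L * M) :=
    Nat.le_of_mul_le_mul_left hmain (by positivity)
  rw [← pow_mul] at h5
  exact (Nat.pow_le_pow_iff_right (by norm_num)).mp h5

/-- The numerical inequality behind the pigeonhole step. -/
theorem numeric' (s E L p q e : ℕ) (hs : 64 ≤ s) (hE : s ^ 8 ≤ E) (hL : 8 * L ≤ s ^ 5)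
    (he : e ≤ E ^ 14) (hp : E ^ 16 ≤ 16 * s * (p + 2))
    (hq : 1024 * s ^ 2 * q ≤ (16 * s + 1) * E ^ 16 + L * (L + e * (L + 1))) :
    q + E ^ 8 + (L + 2) * (E ^ 15 + 1) < p := by
  by_contra hcon
  push Not at hcon
  have hs1 : 1 ≤ s := by omega
  have h64 : 64 ^ 2 ≤ s ^ 2 := Nat.pow_le_pow_left hs 2
  have hs5 : s ^ 5 ≤ s ^ 8 := Nat.pow_le_pow_right hs1 (by norm_num)
  have hE1 : 1 ≤ E := le_trans (Nat.one_le_pow _ _ hs1) hE
  have hLE : L ≤ E := by omega
  have hE15 : 1 ≤ E ^ 15 := Nat.one_le_pow _ _ hE1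
  have hE8 : E ^ 8 ≤ E ^ 15 := Nat.pow_le_pow_right hE1 (by norm_num)
  have hE2 : E * E ≤ E ^ 15 := by
    calc E * E = E ^ 2 := by ring
      _ ≤ E ^ 15 := Nat.pow_le_pow_right hE1 (by norm_num)
  have hLL : L * L ≤ E ^ 15 := (Nat.mul_le_mul hLE hLE).trans hE2
  have hs5b : 32768 ≤ s ^ 5 := by
    calc 32768 ≤ 64 ^ 5 := by norm_num
      _ ≤ s ^ 5 := Nat.pow_le_pow_left hs 5
  have hLe : L * (L + e * (L + 1)) ≤ E ^ 15 + s ^ 7 * E ^ 15 := by
    have h1 : L * (L + 1) ≤ s ^ 5 * s ^ 5 := Nat.mul_le_mul (by omega) (by omega)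
    calc L * (L + e * (L + 1)) = L * L + e * (L * (L + 1)) := by ring
      _ ≤ E ^ 15 + E ^ 14 * (s ^ 5 * s ^ 5) := Nat.add_le_add hLL (Nat.mul_le_mul he h1)
      _ = E ^ 15 + E ^ 14 * s ^ 8 * s ^ 2 := by ring
      _ ≤ E ^ 15 + E ^ 14 * E * s ^ 7 := by
          apply Nat.add_le_add_left
          exact Nat.mul_le_mul (Nat.mul_le_mul_left _ hE) (Nat.pow_le_pow_right hs1 (by norm_num))
      _ = E ^ 15 + s ^ 7 * E ^ 15 := by ring
  -- multiply everything by 1024 s^2
  have h1 : 64 * s * E ^ 16 ≤ 1024 * s ^ 2 * (p + 2) := by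
    calc 64 * s * E ^ 16 ≤ 64 * s * (16 * s * (p + 2)) := Nat.mul_le_mul_left _ hp
      _ = 1024 * s ^ 2 * (p + 2) := by ring
  have h2 : 1024 * s ^ 2 * (p + 2) ≤ 1024 * s ^ 2 * q
      + 1024 * s ^ 2 * (E ^ 8 + 2 + (L + 2) * (E ^ 15 + 1)) := by
    rw [← mul_add]
    apply Nat.mul_le_mul_left
    omega
  have h3 : E ^ 8 + 2 + (L + 2) * (E ^ 15 + 1) ≤ s ^ 5 * E ^ 15 := by
    have h31 : (L + 2) * (E ^ 15 + 1) ≤ (L + 2) * (2 * E ^ 15) := by
      apply Nat.mul_le_mul_left
      omega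
    have h32 : E ^ 8 + 2 + (L + 2) * (2 * E ^ 15) ≤ (2 * L + 8) * E ^ 15 := by
      nlinarith
    have h33 : (2 * L + 8) * E ^ 15 ≤ s ^ 5 * E ^ 15 := by
      apply Nat.mul_le_mul_right
      omega
    omega
  have h4 : 1024 * s ^ 2 * (E ^ 8 + 2 + (L + 2) * (E ^ 15 + 1)) ≤ 1024 * s ^ 7 * E ^ 15 := by
    calc 1024 * s ^ 2 * (E ^ 8 + 2 + (L + 2) * (E ^ 15 + 1))
        ≤ 1024 * s ^ 2 * (s ^ 5 * E ^ 15) := Nat.mul_le_mul_left _ h3
      _ = 1024 * s ^ 7 * E ^ 15 := by ring
  have h5 : 64 * s * E ^ 16 ≤ (16 * s + 1) * E ^ 16 + (E ^ 15 + s ^ 7 * E ^ 15)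
      + 1024 * s ^ 7 * E ^ 15 := by
    omega
  have h6 : s ^ 8 * E ^ 15 ≤ E ^ 16 := by
    calc s ^ 8 * E ^ 15 ≤ E * E ^ 15 := Nat.mul_le_mul_right _ hE
      _ = E ^ 16 := by ring
  have h7 : (16 * s + 1) * E ^ 16 + 47 * E ^ 16 ≤ 64 * s * E ^ 16 := by
    rw [← add_mul]
    apply Nat.mul_le_mul_right
    omega
  have h8 : 1026 * (s ^ 7 * E ^ 15) < 47 * (s ^ 8 * E ^ 15) := by
    have h81 : 47 * (s ^ 8 * E ^ 15) = (47 * s) * (s ^ 7 * E ^ 15) := by ring
    rw [h81]
    apply Nat.mul_lt_mul_of_pos_right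
    · omega
    · have : 0 < s ^ 7 := by positivity
      positivity
  have h9 : E ^ 15 + s ^ 7 * E ^ 15 + 1024 * s ^ 7 * E ^ 15 ≤ 1026 * (s ^ 7 * E ^ 15) := by
    have : E ^ 15 ≤ s ^ 7 * E ^ 15 := Nat.le_mul_of_pos_left _ (by positivity)
    nlinarith
  have h10 : 47 * (s ^ 8 * E ^ 15) ≤ 47 * E ^ 16 := Nat.mul_le_mul_left _ h6
  omega

end Pool.Agent.Helper31.BK
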