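import Pool.Agent.Helper31.BK.Key

/-!
Consecutive integers whose new prime factors appear at most one at a time (MP_6f0a72_nt): the main step
with exceptional numbers.
-/

set_option autoImplicit false

namespace Pool.Agent.Helper31.BK

open Finset
open Pool.Agent.Helper89.ES

/-- The hypothesis fails for `n` in the `s`-th range, `s ≥ 64`, with at most `2 ^ (14 s)` exceptional
numbers, and for `k < 2 ^ (16 s)`. -/
theorem not_hypE_range (s n : ℕ) (E : Finset ℕ) (hs : 64 ≤ s) (hn1 : 2 ^ (16384 * s ^ 2) ≤ n)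
    (hn2 : n < 2 ^ (16384 * (s + 1) ^ 2)) (hE : ∀ k ∈ E, k ≤ n) (hEc : E.card ≤ 2 ^ (14 * s)) :
    ¬HypE n (2 ^ (16 * s)) E := by
  intro hyp
  have hs1 : 1 ≤ s := by omega
  have hn0 : 0 < n := lt_of_lt_of_le (by positivity) hn1
  set L := 16384 * (s + 1) ^ 2 with hL
  have hY : 2 ^ (16 * s) ≤ n := by
    refine le_trans (Nat.pow_le_pow_right (by norm_num) ?_) hn1
    nlinarith
  set P := Nat.primesLE (2 ^ (16 * s)) with hP
  have hpc := prime_count (16 * s) (by omega)
  rw [← hP] at hpc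
  have h8 := pow8_le s hs
  have hLs := L_le s hs
  rw [← hL] at hLs
  have hE16 : (2 ^ s) ^ 16 = 2 ^ (16 * s) := by rw [← pow_mul]; congr 1; ring
  have hE14 : (2 ^ s) ^ 14 = 2 ^ (14 * s) := by rw [← pow_mul]; congr 1; ring
  have hE15 : (2 ^ s) ^ 14 ≤ (2 ^ s) ^ 15 := Nat.pow_le_pow_right (by positivity) (by norm_num)
  have hEc' : E.card ≤ (2 ^ s) ^ 14 := by rw [hE14]; exact hEc
  -- `S` is nonempty
  have hD := card_bad_le n L (2 ^ (16 * s)) E hn0 hn2 hE
  rw [← hP] at hD
  have hnum0 := numeric' s (2 ^ s) L P.card 0 E.card hs h8 hLs hEc' (by rw [hE16]; exact hpc)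
    (by simp)
  have hSne : (good n (2 ^ (16 * s)) E).Nonempty := by
    rw [← Finset.card_pos]
    have hcard : (good n (2 ^ (16 * s)) E).card
        + (P.filter (fun p => ¬(¬p ∣ n ∧ kap n p ∉ E))).card = P.card :=
      Finset.card_filter_add_card_filter_not _
    have h1 : E.card * (L + 1) ≤ (2 ^ s) ^ 15 * (L + 1) :=
      Nat.mul_le_mul_right _ (hEc'.trans hE15)
    have h2 : L + (2 ^ s) ^ 15 * (L + 1) ≤ (L + 2) * ((2 ^ s) ^ 15 + 1) := by
      have h3 : 0 ≤ (2 ^ s) ^ 15 := Nat.zero_le _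
      nlinarith
    omega
  obtain ⟨w, hw, hkey⟩ := key' n (2 ^ (16 * s)) E hyp hn0 hSne
  have hbad := bad_bound' n (16 * s) L (L + E.card * (L + 1)) (1024 * s ^ 2) E w hn0 hn2 hY hw hD hkey
  rw [← hP] at hbad
  set B := P.filter (fun r => r ^ (n + w r).factorization r * 2 ^ (1024 * s ^ 2) < n) with hB
  have hnum := numeric' s (2 ^ s) L P.card B.card E.card hs h8 hLs hEc' (by rw [hE16]; exact hpc)
    (by rw [hE16]; exact hbad)
  set G := (P \ B) \ Finset.range (2 ^ (8 * s)) with hG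
  have hGcard : (L + 2) * ((2 ^ s) ^ 15 + 1) < G.card := by
    have h1 : P.card - B.card ≤ (P \ B).card := Finset.le_card_sdiff _ _
    have h2 : (P \ B).card - (Finset.range (2 ^ (8 * s))).card ≤ G.card :=
      Finset.le_card_sdiff _ _
    rw [Finset.card_range] at h2
    have h3 : (2 ^ s) ^ 8 = 2 ^ (8 * s) := by rw [← pow_mul]; congr 1; ring
    rw [h3] at hnum
    omega
  have hGmem : ∀ r ∈ G, r.Prime ∧ r ≤ 2 ^ (16 * s) ∧ 2 ^ (8 * s) ≤ r ∧
      n ≤ r ^ (n + w r).factorization r * 2 ^ (1024 * s ^ 2) := by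
    intro r hr
    rw [hG, mem_sdiff, mem_sdiff, Finset.mem_range, hB, mem_filter] at hr
    obtain ⟨⟨hrP, hrB⟩, hr8⟩ := hr
    have h1 := Nat.mem_primesLE.mp hrP
    refine ⟨h1.2, h1.1, by omega, ?_⟩
    by_contra h
    exact hrB ⟨hrP, by omega⟩
  -- pigeonhole
  obtain ⟨r, hr, r', hr', hne, hf⟩ := Finset.exists_ne_map_eq_of_card_lt_of_maps_to
    (s := G) (t := Finset.range (L + 2) ×ˢ Finset.range ((2 ^ s) ^ 15 + 1))
    (by rw [Finset.card_product, Finset.card_range, Finset.card_range]; exact hGcard)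
    (f := fun r => ((n + w r).factorization r, r / 2 ^ s))
    (by
      intro r hr
      have h1 := hGmem r hr
      simp only [Finset.coe_product, Set.mem_prod, Finset.mem_coe, Finset.mem_range]
      constructor
      · have h2 : 2 ^ (n + w r).factorization r < 2 ^ (L + 1) := by
          calc 2 ^ (n + w r).factorization r ≤ r ^ (n + w r).factorization r :=
                Nat.pow_le_pow_left h1.1.two_le _
            _ ≤ n + w r := Nat.le_of_dvd (by omega) (Nat.ordProj_dvd _ _)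
            _ ≤ 2 * n := by have := (hw r).2; omega
            _ < 2 * 2 ^ L := by omega
            _ = 2 ^ (L + 1) := by ring_nf
        have := (Nat.pow_lt_pow_iff_right (by norm_num)).mp h2
        omega
      · have h2 : r / 2 ^ s ≤ (2 ^ s) ^ 15 := by
          apply Nat.div_le_of_le_mul
          calc r ≤ 2 ^ (16 * s) := h1.2.1
            _ = 2 ^ s * (2 ^ s) ^ 15 := by rw [← hE16]; ring
        omega)
  simp only [Prod.mk.injEq] at hf
  obtain ⟨hfa, hfq⟩ := hf
  -- symmetric statement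
  have hsym : ∀ r r' : ℕ, r ∈ G → r' ∈ G → r < r' →
      (n + w r).factorization r = (n + w r').factorization r' →
      r / 2 ^ s = r' / 2 ^ s → False := by
    intro r r' hr hr' hlt hfa hfq
    have h1 := hGmem r hr
    have h1' := hGmem r' hr'
    set a := (n + w r).factorization r with ha
    have hd1 : r ^ a ∣ n + w r := Nat.ordProj_dvd _ _
    have hd2 : r' ^ a ∣ n + w r' := by rw [hfa]; exact Nat.ordProj_dvd _ _
    have hgap : r' - r < 2 ^ s := by
      have e1 := Nat.div_add_mod r (2 ^ s)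
      have e2 := Nat.div_add_mod r' (2 ^ s)
      have e3 := Nat.mod_lt r' (show 0 < 2 ^ s by positivity)
      rw [hfq] at e1
      omega
    have haL : a ≤ L + 1 := by
      have h2 : 2 ^ a < 2 ^ (L + 1) := by
        calc 2 ^ a ≤ r ^ a := Nat.pow_le_pow_left h1.1.two_le _
          _ ≤ n + w r := Nat.le_of_dvd (by omega) hd1
          _ ≤ 2 * n := by have := (hw r).2; omega
          _ < 2 * 2 ^ L := by omega
          _ = 2 ^ (L + 1) := by ring_nf
      have := (Nat.pow_lt_pow_iff_right (by norm_num)).mp h2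
      omega
    have ha2 : 2 * (a + 300 * s) ≤ 2 ^ s := by
      refine le_trans ?_ h8
      have hs5 : 64 ^ 4 * s ≤ s ^ 5 := by
        calc 64 ^ 4 * s ≤ s ^ 4 * s := Nat.mul_le_mul_right _ (Nat.pow_le_pow_left hs 4)
          _ = s ^ 5 := by ring
      have hs8 : s ^ 5 ≤ s ^ 8 := Nat.pow_le_pow_right hs1 (by norm_num)
      omega
    obtain ⟨h, rfl⟩ : ∃ h, r' = r + h := ⟨r' - r, by omega⟩
    exact two_good_false s n r h a (w r) (w (r + h)) hs hn1 h1.2.2.1 h1'.2.1 (by omega)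
      (by omega) ha2 (hw r).2 (hw (r + h)).2 hd1 hd2 h1.2.2.2 (by rw [hfa]; exact h1'.2.2.2)
  rcases lt_or_gt_of_ne hne with hlt | hlt
  · exact hsym r r' hr hr' hlt hfa hfq
  · exact hsym r' r hr' hr hlt hfa.symm hfq.symm

/-- The number `s` of the range. -/
theorem range_of (n : ℕ) (hn : 16384 * 64 ^ 2 ≤ Nat.log 2 n) :
    64 ≤ Nat.sqrt (Nat.log 2 n / 16384) ∧
      2 ^ (16384 * Nat.sqrt (Nat.log 2 n / 16384) ^ 2) ≤ n ∧
      n < 2 ^ (16384 * (Nat.sqrt (Nat.log 2 n / 16384) + 1) ^ 2) := by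
  have hn0 : n ≠ 0 := by
    rintro rfl
    rw [Nat.log_zero_right] at hn
    omega
  set l := Nat.log 2 n with hl
  set s := Nat.sqrt (l / 16384) with hs
  have h1 : s ^ 2 ≤ l / 16384 := Nat.sqrt_le' _
  have h2 : l / 16384 < (s + 1) ^ 2 := Nat.lt_succ_sqrt' _
  have h3 : 16384 * s ^ 2 ≤ l := by
    calc 16384 * s ^ 2 ≤ 16384 * (l / 16384) := Nat.mul_le_mul_left _ h1
      _ ≤ l := Nat.mul_div_le l 16384
  have h4 : l + 1 ≤ 16384 * (s + 1) ^ 2 := by
    have h5 : l / 16384 + 1 ≤ (s + 1) ^ 2 := h2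
    have h6 := Nat.div_add_mod l 16384
    have h7 := Nat.mod_lt l (show 0 < 16384 by norm_num)
    have h8 : 16384 * (l / 16384 + 1) ≤ 16384 * (s + 1) ^ 2 := Nat.mul_le_mul_left _ h5
    omega
  have hs64 : 64 ≤ s := by
    rw [hs, Nat.le_sqrt', Nat.le_div_iff_mul_le (by norm_num)]
    omega
  refine ⟨hs64, ?_, ?_⟩
  · exact (Nat.pow_le_pow_right (by norm_num) h3).trans (Nat.pow_log_le_self 2 hn0)
  · exact lt_of_lt_of_le (Nat.lt_pow_succ_log_self (by norm_num) n)
      (Nat.pow_le_pow_right (by norm_num) h4)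

end Pool.Agent.Helper31.BK
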